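import Pool.Agent.helper23.CU.Spec

/-! Module PM of project cu (MP_7c3fb3_pr): `p` is nondecreasing with values in `[0,1]`. -/

open Finset Filter Topology

namespace CU

lemma PM_Mg {d n : ℕ} [NeZero n] : Monotone (Mg : Conf d n → ℝ) := by
  intro σ η h
  unfold Mg
  refine Finset.sum_le_sum fun x _ => ?_
  have := h x
  unfold sg
  revert this
  cases σ x <;> cases η x <;> simp

theorem PM (hMON : MON_stmt) (hLIN : LIN_stmt) (hREV : REV_stmt) : PM_stmt := by
  intro d n _ hn β hβ s t t' htt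
  obtain ⟨k, rfl⟩ := Nat.exists_eq_add_of_le htt
  set f : Conf d n → ℝ := (Gm (d := d) (n := n) β s).indicator fun _ => 1 with hf
  have hc : ∀ (t : ℕ) (c : ℝ), (Pf β)^[t] (fun _ : Conf d n => c) = fun _ => c :=
    fun t => (hREV d n β f f t).2
  have mono : ∀ (t : ℕ) (f g : Conf d n → ℝ), (∀ σ, f σ ≤ g σ) →
      ∀ σ, (Pf β)^[t] f σ ≤ (Pf β)^[t] g σ :=
    fun t f g => (hLIN d n β f g 0 0 t).2.1
  have hf0 : ∀ σ, 0 ≤ f σ := fun σ => Set.indicator_nonneg (fun _ _ => zero_le_one) σ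
  have hf1 : ∀ σ, f σ ≤ 1 := by
    intro σ
    rw [hf]
    by_cases h : σ ∈ Gm (d := d) (n := n) β s
    · rw [Set.indicator_of_mem h]
    · rw [Set.indicator_of_notMem h]; norm_num
  have h0 : ∀ t σ, 0 ≤ (Pf β)^[t] f σ := by
    intro t σ
    have h := mono t (fun _ => 0) f hf0 σ
    rwa [hc] at h
  have h1 : ∀ t σ, (Pf β)^[t] f σ ≤ 1 := by
    intro t σ
    have h := mono t f (fun _ => 1) hf1 σ
    rwa [hc] at h
  have hgs : Monotone (gs β s : Conf d n → ℝ) := (hMON d n hn β hβ Mg PM_Mg).2 s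
  have hneg : Monotone (fun σ : Conf d n => (-1) * f σ + 0 * f σ) := by
    intro σ η h
    show (-1) * f σ + 0 * f σ ≤ (-1) * f η + 0 * f η
    have h2 : f η ≤ f σ := by
      by_cases hη : η ∈ Gm (d := d) (n := n) β s
      · have hσ : σ ∈ Gm (d := d) (n := n) β s := le_trans (hgs h) hη
        rw [hf, Set.indicator_of_mem hη, Set.indicator_of_mem hσ]
      · have : f η = 0 := by rw [hf, Set.indicator_of_notMem hη]
        rw [this]
        exact hf0 σ
    linarith
  have hanti : ∀ (t : ℕ) (σ : Conf d n), (Pf β)^[t] f plus ≤ (Pf β)^[t] f σ := by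
    intro t σ
    have h := (hMON d n hn β hβ _ hneg).2 t
    rw [(hLIN d n β f f (-1) 0 t).1] at h
    have hp : σ ≤ plus := fun x => by
      unfold plus
      exact Bool.le_true _
    have h2 : (-1) * (Pf β)^[t] f σ + 0 * (Pf β)^[t] f σ ≤
      (-1) * (Pf β)^[t] f plus + 0 * (Pf β)^[t] f plus := h hp
    linarith
  refine ⟨h0 t plus, ?_, h1 _ plus⟩
  have h := mono k (fun _ => (Pf β)^[t] f plus) ((Pf β)^[t] f) (hanti t) plus
  rw [hc, ← Function.iterate_add_apply, add_comm k t] at h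
  exact h

end CU
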