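import Pool.Agent.helper23.CU.SpecU

/-! Module VC of project cu (MP_7c3fb3_pr): the plus magnetisation decreases with the volume. -/

open Finset Filter Topology MeasureTheory

namespace CU

theorem VC (hVA : VA_stmt) (hVB : VB_stmt) : VC_stmt := by
  intro d β hβ Λ Λ' hL x
  set f : ZConf d → ℝ := fun σ => sg (σ x) with hf
  have hmono : Monotone f := by
    intro σ η h
    have := h x
    simp only [hf]
    unfold sg
    revert this
    cases σ x <;> cases η x <;> simp
  have hle : ∀ σ, gam β 0 Λ f σ ≤ gam β 0 Λ f (fun _ => true) := by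
    intro σ
    exact hVA d β hβ Λ f hmono σ _ (fun y => Bool.le_true _)
  rw [← hVB d β Λ Λ' hL f]
  have hpos : ∀ η : {x // x ∈ Λ'} → Bool, 0 < zwt β 0 Λ' (glue Λ' η (fun _ => true)) :=
    fun η => Real.exp_pos _
  have hZ : 0 < ∑ η : {x // x ∈ Λ'} → Bool, zwt β 0 Λ' (glue Λ' η (fun _ => true)) :=
    Finset.sum_pos (fun η _ => hpos η) ⟨fun _ => true, Finset.mem_univ _⟩
  have key : ∀ g : ZConf d → ℝ, ∀ c : ℝ, (∀ σ, g σ ≤ c) → gam β 0 Λ' g (fun _ => true) ≤ c := by
    intro g c hg
    unfold gam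
    rw [div_le_iff₀ hZ, Finset.mul_sum]
    refine Finset.sum_le_sum fun η _ => ?_
    rw [mul_comm c]
    exact mul_le_mul_of_nonneg_left (hg _) (hpos η).le
  exact key _ _ hle

end CU
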