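import Pool.Agent.helper23.CU.SpecU

/-! Module VD of project cu (MP_7c3fb3_pr): translation invariance of the finite volume measures. -/

open Finset Filter Topology MeasureTheory

namespace CU

section VDsec
variable {d : ℕ}

lemma VD_mem_tE (Λ : Finset (ZSite d)) (e : ZSite d × Fin d) :
    e ∈ tE Λ ↔ e.1 ∈ Λ ∨ e.1 + zev e.2 ∈ Λ := by
  unfold tE
  rw [Finset.mem_union, Finset.mem_image]
  constructor
  · rintro (h | ⟨e', h, rfl⟩)
    · rw [Finset.mem_product] at h
      exact Or.inl h.1
    · rw [Finset.mem_product] at h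
      right
      simpa using h.1
  · rintro (h | h)
    · left
      rw [Finset.mem_product]
      exact ⟨h, Finset.mem_univ _⟩
    · right
      refine ⟨(e.1 + zev e.2, e.2), ?_, ?_⟩
      · rw [Finset.mem_product]
        exact ⟨h, Finset.mem_univ _⟩
      · simp

lemma VD_box (L : ℕ) (x y : ZSite d) : y + x ∈ zBox L x ↔ y ∈ zBox L (0 : ZSite d) := by
  unfold zBox
  simp only [Fintype.mem_piFinset, Finset.mem_Icc, Pi.add_apply, Pi.zero_apply]
  constructor
  · intro h k
    have := h k
    constructor <;> linarith [this.1, this.2]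
  · intro h k
    have := h k
    constructor <;> linarith [this.1, this.2]

lemma VD_wt (β : ℝ) (L : ℕ) (x : ZSite d) (σ : ZConf d) :
    zwt β 0 (zBox L x) σ = zwt β 0 (zBox L (0 : ZSite d)) (fun y => σ (y + x)) := by
  unfold zwt
  congr 1
  simp only [zero_mul, add_zero]
  congr 1
  symm
  apply Finset.sum_bij (fun e _ => (e.1 + x, e.2))
  · intro e he
    rw [VD_mem_tE] at he ⊢
    show e.1 + x ∈ _ ∨ e.1 + x + zev e.2 ∈ _
    rw [add_right_comm, VD_box, VD_box]
    exact he
  · intro e _ e' _ h
    rw [Prod.mk.injEq] at h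
    exact Prod.ext (add_right_cancel h.1) h.2
  · intro e he
    refine ⟨(e.1 - x, e.2), ?_, ?_⟩
    · rw [VD_mem_tE] at he ⊢
      show e.1 - x ∈ _ ∨ e.1 - x + zev e.2 ∈ _
      rw [← VD_box L x, ← VD_box L x]
      have e1 : e.1 - x + x = e.1 := by abel
      have e2 : e.1 - x + zev e.2 + x = e.1 + zev e.2 := by abel
      rw [e1, e2]
      exact he
    · simp
  · intro e _
    show sg (σ (e.1 + x)) * sg (σ (e.1 + zev e.2 + x)) = sg (σ (e.1 + x)) * sg (σ (e.1 + x + zev e.2))
    rw [add_right_comm]

end VDsec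

theorem VD : VD_stmt := by
  intro d β L x
  set e : {y // y ∈ zBox L (0 : ZSite d)} ≃ {y // y ∈ zBox L x} :=
    { toFun := fun y => ⟨y.1 + x, (VD_box L x y.1).2 y.2⟩
      invFun := fun y => ⟨y.1 - x, (VD_box L x (y.1 - x)).1 (by rw [sub_add_cancel]; exact y.2)⟩
      left_inv := fun y => Subtype.ext (by simp)
      right_inv := fun y => Subtype.ext (by simp) } with he
  have hglue : ∀ η : {y // y ∈ zBox L (0 : ZSite d)} → Bool, ∀ y,
      glue (zBox L x) (fun z => η (e.symm z)) (fun _ => true) (y + x) =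
        glue (zBox L (0 : ZSite d)) η (fun _ => true) y := by
    intro η y
    unfold glue
    by_cases h : y ∈ zBox L (0 : ZSite d)
    · have h2 := (VD_box L x y).2 h
      rw [dif_pos h, dif_pos h2]
      have h3 : e.symm ⟨y + x, h2⟩ = ⟨y, h⟩ := Subtype.ext (add_sub_cancel_right y x)
      show η (e.symm ⟨y + x, h2⟩) = η ⟨y, h⟩
      rw [h3]
    · have h2 : y + x ∉ zBox L x := fun h3 => h ((VD_box L x y).1 h3)
      rw [dif_neg h, dif_neg h2]
  have hw : ∀ η : {y // y ∈ zBox L (0 : ZSite d)} → Bool,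
      zwt β 0 (zBox L x) (glue (zBox L x) (fun z => η (e.symm z)) (fun _ => true)) =
        zwt β 0 (zBox L (0 : ZSite d)) (glue (zBox L (0 : ZSite d)) η (fun _ => true)) := by
    intro η
    rw [VD_wt]
    congr 1
    funext y
    exact hglue η y
  have hb : Function.Bijective (fun (η : {y // y ∈ zBox L (0 : ZSite d)} → Bool) =>
      fun z : {y // y ∈ zBox L x} => η (e.symm z)) :=
    (Equiv.arrowCongr e (Equiv.refl Bool)).bijective
  unfold gam
  congr 1
  · symm
    apply Fintype.sum_bijective _ hb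
    intro η
    show zwt β 0 (zBox L (0 : ZSite d)) (glue (zBox L (0 : ZSite d)) η (fun _ => true)) *
        sg (glue (zBox L (0 : ZSite d)) η (fun _ => true) 0) =
      zwt β 0 (zBox L x) (glue (zBox L x) (fun z => η (e.symm z)) (fun _ => true)) *
        sg (glue (zBox L x) (fun z => η (e.symm z)) (fun _ => true) x)
    rw [hw]
    have h0 := hglue η 0
    rw [zero_add] at h0
    rw [h0]
  · symm
    apply Fintype.sum_bijective _ hb
    intro η
    exact (hw η).symm

end CU
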