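import Pool.Agent.helper23.CU.SpecU

/-! Module VE of project cu (MP_7c3fb3_pr): spin flip symmetry of the finite volume measures. -/

open Finset Filter Topology MeasureTheory

namespace CU

theorem VE : VE_stmt := by
  intro d β Λ x
  have hsg : ∀ b : Bool, sg (!b) = - sg b := by
    intro b
    cases b <;> simp [sg]
  have hglue : ∀ η : {x // x ∈ Λ} → Bool, ∀ y,
      glue Λ (fun z => !η z) (fun _ => false) y = !(glue Λ η (fun _ => true) y) := by
    intro η y
    unfold glue
    by_cases h : y ∈ Λ
    · simp [h]
    · simp [h]
  have hw : ∀ η : {x // x ∈ Λ} → Bool,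
      zwt β 0 Λ (glue Λ (fun z => !η z) (fun _ => false)) = zwt β 0 Λ (glue Λ η (fun _ => true)) := by
    intro η
    unfold zwt
    congr 1
    simp only [hglue, hsg, zero_mul, neg_mul_neg]
  have hb : Function.Bijective (fun (η : {x // x ∈ Λ} → Bool) => fun z => !η z) := by
    apply Function.Involutive.bijective
    intro η
    funext z
    simp
  unfold gam
  rw [← neg_div, ← Finset.sum_neg_distrib]
  congr 1
  · symm
    apply Fintype.sum_bijective _ hb
    intro η
    show -(zwt β 0 Λ (glue Λ η (fun _ => true)) * sg (glue Λ η (fun _ => true) x)) =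
      zwt β 0 Λ (glue Λ (fun z => !η z) (fun _ => false)) * sg (glue Λ (fun z => !η z) (fun _ => false) x)
    rw [hw, hglue, hsg]
    ring
  · symm
    apply Fintype.sum_bijective _ hb
    intro η
    exact (hw η).symm

end CU
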