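import Pool.Agent.helper23.CU.SpecU

/-! Module VP of project cu (MP_7c3fb3_pr): measures agreeing on the events `σ = +` on `S`. -/

open Finset Filter Topology MeasureTheory

namespace CU

theorem VP : VP_stmt := by
  intro d μ ν hμ hν h
  let C : Set (Set (ZConf d)) := {A | ∃ S : Finset (ZSite d), A = {σ | ∀ x ∈ S, σ x = true}}
  have hmeas : ∀ S : Finset (ZSite d), MeasurableSet {σ : ZConf d | ∀ x ∈ S, σ x = true} := by
    intro S
    have e : {σ : ZConf d | ∀ x ∈ S, σ x = true} = ⋂ x ∈ S, (fun σ : ZConf d => σ x) ⁻¹' {true} := by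
      ext σ
      simp
    rw [e]
    apply Finset.measurableSet_biInter
    intro x _
    exact (measurable_pi_apply x) (measurableSet_singleton true)
  have hgen : (inferInstance : MeasurableSpace (ZConf d)) = MeasurableSpace.generateFrom C := by
    apply le_antisymm
    · apply iSup_le
      intro x
      rw [← measurable_iff_comap_le]
      apply @measurable_to_bool _ (MeasurableSpace.generateFrom C)
      apply MeasurableSpace.measurableSet_generateFrom
      refine ⟨{x}, ?_⟩
      ext σ
      simp
    · apply MeasurableSpace.generateFrom_le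
      rintro A ⟨S, rfl⟩
      exact hmeas S
  apply ext_of_generate_finite C hgen
  · rintro A ⟨S, rfl⟩ B ⟨T, rfl⟩ _
    classical
    refine ⟨S ∪ T, ?_⟩
    ext σ
    simp only [Set.mem_inter_iff, Set.mem_ofPred_eq, Finset.mem_union]
    constructor
    · rintro ⟨h1, h2⟩ x (hx | hx)
      · exact h1 x hx
      · exact h2 x hx
    · intro h1
      exact ⟨fun x hx => h1 x (Or.inl hx), fun x hx => h1 x (Or.inr hx)⟩
  · rintro A ⟨S, rfl⟩
    exact (ENNReal.toReal_eq_toReal_iff' (measure_ne_top _ _) (measure_ne_top _ _)).1 (h S)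
  · rw [measure_univ, measure_univ]

end CU
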