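import Pool.Agent.helper23.CU.Spec

/-! Module BC of project cu (MP_7c3fb3_pr): the number of sites of a box. -/

open Finset Filter Topology

namespace CU

theorem BC : BC_stmt := by
  intro d n L _ v
  have h : (Box L v).card ≤ (Fintype.piFinset fun _ : Fin d => Finset.Icc (-(L : ℤ)) L).card := by
    apply Finset.card_le_card_of_injOn (fun x k => (x k - v k).valMinAbs)
    · intro x hx
      rw [Finset.mem_coe, Fintype.mem_piFinset]
      intro k
      have h1 : Near L v x := (Finset.mem_filter.1 hx).2
      have h2 := h1 k
      show (x k - v k).valMinAbs ∈ Finset.Icc (-(L : ℤ)) L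
      rw [Finset.mem_Icc]
      omega
    · intro x _ y _ hxy
      funext k
      have h1 : (x k - v k).valMinAbs = (y k - v k).valMinAbs := congrFun hxy k
      have h2 : (((x k - v k).valMinAbs : ℤ) : ZMod n) = (((y k - v k).valMinAbs : ℤ) : ZMod n) := by
        rw [h1]
      rw [ZMod.coe_valMinAbs, ZMod.coe_valMinAbs] at h2
      exact sub_left_injective h2
  refine h.trans ?_
  rw [Fintype.card_piFinset, Finset.prod_const, Int.card_Icc, Finset.card_univ, Fintype.card_fin]
  apply le_of_eq
  congr 1
  omega

end CU
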