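import Pool.Agent.helper23.CU.Spec

/-! Module BT of project cu (MP_7c3fb3_pr): the bottleneck inequality. -/

open Finset Filter Topology

namespace CU

lemma BT_congr {d n : ℕ} [NeZero n] (β : ℝ) (f g : Conf d n → ℝ) (σ : Conf d n)
    (h : ∀ x b, f (Function.update σ x b) = g (Function.update σ x b)) : Pf β f σ = Pf β g σ := by
  unfold Pf
  congr 1
  refine Finset.sum_congr rfl fun x _ => ?_
  unfold Kx
  rw [h, h]

theorem BT (hLIN : LIN_stmt) (hREV : REV_stmt) (hFLP : FLP_stmt) : BT_stmt := by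
  intro d n _ β A hA1 hA2 t
  set a : Conf d n → ℝ := A.indicator fun _ => 1 with ha
  set c : Conf d n → ℝ := Aᶜ.indicator fun _ => 1 with hc
  have lin : ∀ (f g : Conf d n → ℝ) (a b : ℝ),
      Ex β (fun σ => a * f σ + b * g σ) = a * Ex β f + b * Ex β g :=
    fun f g a b => (hLIN d n β f g a b 0).2.2.1
  have mono : ∀ (f g : Conf d n → ℝ), (∀ σ, f σ ≤ g σ) → Ex β f ≤ Ex β g :=
    fun f g => (hLIN d n β f g 0 0 0).2.2.2.1
  have pmono : ∀ (t : ℕ) (f g : Conf d n → ℝ), (∀ σ, f σ ≤ g σ) →
      ∀ σ, (Pf β)^[t] f σ ≤ (Pf β)^[t] g σ :=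
    fun t f g => (hLIN d n β f g 0 0 t).2.1
  have pconst : ∀ (t : ℕ) (k : ℝ), (Pf β)^[t] (fun _ : Conf d n => k) = fun _ => k :=
    fun t k => (hREV d n β (fun _ => 0) (fun _ => 0) t).2 k
  have rev : ∀ (t : ℕ) (f g : Conf d n → ℝ),
      Ex β (fun σ => f σ * (Pf β)^[t] g σ) = Ex β (fun σ => (Pf β)^[t] f σ * g σ) :=
    fun t f g => (hREV d n β f g t).1
  have ind : ∀ (S : Set (Conf d n)) σ, 0 ≤ S.indicator (fun _ => (1 : ℝ)) σ ∧
      S.indicator (fun _ => (1 : ℝ)) σ ≤ 1 := by
    intro S σ
    by_cases h : σ ∈ S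
    · rw [Set.indicator_of_mem h]; norm_num
    · rw [Set.indicator_of_notMem h]; norm_num
  have pb : ∀ (S : Set (Conf d n)) (t : ℕ) σ, 0 ≤ (Pf β)^[t] (S.indicator fun _ => (1 : ℝ)) σ ∧
      (Pf β)^[t] (S.indicator fun _ => (1 : ℝ)) σ ≤ 1 := by
    intro S t σ
    constructor
    · have h := pmono t (fun _ => 0) (S.indicator fun _ => 1) (fun η => (ind S η).1) σ
      rwa [pconst] at h
    · have h := pmono t (S.indicator fun _ => 1) (fun _ => 1) (fun η => (ind S η).2) σ
      rwa [pconst] at h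
  have hac : ∀ σ, a σ + c σ = 1 := by
    intro σ
    by_cases h : σ ∈ A
    · rw [ha, hc, Set.indicator_of_mem h, Set.indicator_of_notMem (by simpa using h)]; norm_num
    · rw [ha, hc, Set.indicator_of_notMem h, Set.indicator_of_mem (by simpa using h)]; norm_num
  -- one step
  have h1 : Ex β (fun σ => a σ * Pf β c σ) ≤ 1 - 2 * PrE β A := by
    set Z : Set (Conf d n) := {η | η ∉ A ∧ flipc η ∉ A} with hZ
    have e1 : ∀ σ, a σ * Pf β c σ ≤ Pf β (Z.indicator fun _ => 1) σ := by
      intro σ
      by_cases h : σ ∈ A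
      · rw [ha, Set.indicator_of_mem h, one_mul]
        apply le_of_eq
        apply BT_congr
        intro x b
        by_cases hu : Function.update σ x b ∈ A
        · rw [hc, Set.indicator_of_notMem (by simpa using hu),
            Set.indicator_of_notMem (by intro hz; exact hz.1 hu)]
        · have hz : Function.update σ x b ∈ Z := ⟨hu, hA2 σ h x b⟩
          have hu' : Function.update σ x b ∈ Aᶜ := hu
          rw [hc, Set.indicator_of_mem hu', Set.indicator_of_mem hz]
      · rw [ha, Set.indicator_of_notMem h, zero_mul]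
        exact (pb Z 1 σ).1
    have e2 := mono _ _ e1
    have e3 : Ex β (fun σ => Pf β (Z.indicator fun _ => 1) σ) = Ex β (Z.indicator fun _ => 1) := by
      have h := rev 1 (fun _ => 1) (Z.indicator fun _ => 1)
      rw [pconst] at h
      simpa using h
    have e4 : (Z.indicator fun _ => (1 : ℝ)) = fun σ => 1 * (1 * (1 : ℝ) + (-1) * a σ) +
        (-1) * a (flipc σ) := by
      funext σ
      by_cases h : σ ∈ A
      · have h' := hA1 σ h
        rw [ha, Set.indicator_of_mem h, Set.indicator_of_notMem h',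
          Set.indicator_of_notMem (by intro hz; exact hz.1 h)]
        norm_num
      · by_cases h' : flipc σ ∈ A
        · rw [ha, Set.indicator_of_notMem h, Set.indicator_of_mem h',
            Set.indicator_of_notMem (by intro hz; exact hz.2 h')]
          norm_num
        · have hz : σ ∈ Z := ⟨h, h'⟩
          rw [ha, Set.indicator_of_notMem h, Set.indicator_of_notMem h',
            Set.indicator_of_mem hz]
          norm_num
    have e5 : Ex β (fun σ : Conf d n => 1 * (1 * (1 : ℝ) + (-1) * a σ) + (-1) * a (flipc σ)) =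
        1 - 2 * PrE β A := by
      rw [lin (fun σ => 1 * (1 : ℝ) + (-1) * a σ) (fun σ => a (flipc σ)) 1 (-1),
        lin (fun _ => (1 : ℝ)) a 1 (-1), (hFLP d n β a 0).2.1,
        (hLIN d n β (fun _ => 0) (fun _ => 0) 1 0 0).2.2.2.2]
      unfold PrE
      ring
    rw [e3, e4, e5] at e2
    exact e2
  have key : ∀ t : ℕ, Ex β (fun σ => a σ * (Pf β)^[t] c σ) ≤ t * (1 - 2 * PrE β A) := by
    intro t
    induction t with
    | zero =>
      have : (fun σ => a σ * (Pf β)^[0] c σ) = fun _ : Conf d n => (0 : ℝ) := by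
        funext σ
        by_cases h : σ ∈ A
        · simp [hc, h]
        · simp [ha, h]
      rw [this, (hLIN d n β (fun _ => 0) (fun _ => 0) 0 0 0).2.2.2.2]
      simp
    | succ t ih =>
      have e0 : (fun σ => a σ * (Pf β)^[t + 1] c σ) = fun σ => a σ * (Pf β)^[t] (Pf β c) σ := rfl
      rw [e0, rev t a (Pf β c)]
      have e1 : ∀ σ, (Pf β)^[t] a σ * Pf β c σ ≤ 1 * (a σ * Pf β c σ) + 1 * ((Pf β)^[t] a σ * c σ) := by
        intro σ
        have p1 := pb A t σ
        have p2 := pb Aᶜ 1 σ
        have p3 := ind A σ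
        have p4 := ind Aᶜ σ
        rw [← ha] at p1 p3
        rw [← hc] at p2 p4
        simp only [Function.iterate_one] at p2
        have p5 := hac σ
        have q1 : (Pf β)^[t] a σ * Pf β c σ = a σ * ((Pf β)^[t] a σ * Pf β c σ) +
            c σ * ((Pf β)^[t] a σ * Pf β c σ) := by
          rw [← add_mul, p5, one_mul]
        have q2 : a σ * ((Pf β)^[t] a σ * Pf β c σ) ≤ a σ * Pf β c σ := by
          apply mul_le_mul_of_nonneg_left _ p3.1
          exact mul_le_of_le_one_left p2.1 p1.2
        have q3 : c σ * ((Pf β)^[t] a σ * Pf β c σ) ≤ c σ * (Pf β)^[t] a σ := by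
          apply mul_le_mul_of_nonneg_left _ p4.1
          exact mul_le_of_le_one_right p1.1 p2.2
        rw [q1]
        linarith [mul_comm (c σ) ((Pf β)^[t] a σ)]
      have e2 := mono _ _ e1
      rw [lin (fun σ => a σ * Pf β c σ) (fun σ => (Pf β)^[t] a σ * c σ) 1 1, ← rev t a c] at e2
      push_cast
      linarith
  exact key t

end CU
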