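import Pool.Agent.helper23.CU.Spec

/-! Module DM of project cu (MP_7c3fb3_pr): `dTV` is nonincreasing. -/

open Finset Filter Topology

namespace CU

theorem DM (hBR : BR_stmt) (hLIN : LIN_stmt) (hREV : REV_stmt) : DM_stmt := by
  intro d n _ hn β s t hst
  apply (hBR d n hn β t).1
  intro f hf σ
  obtain ⟨k, rfl⟩ := Nat.exists_eq_add_of_le hst
  have hc : ∀ c : ℝ, (Pf β)^[k] (fun _ : Conf d n => c) = fun _ => c :=
    (hREV d n β f f k).2
  have h0 : ∀ η, 0 ≤ (Pf β)^[k] f η := by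
    intro η
    have h := (hLIN d n β (fun _ => 0) f 0 0 k).2.1 (fun η => (hf η).1) η
    rwa [hc 0] at h
  have h1 : ∀ η, (Pf β)^[k] f η ≤ 1 := by
    intro η
    have h := (hLIN d n β f (fun _ => 1) 0 0 k).2.1 (fun η => (hf η).2) η
    rwa [hc 1] at h
  have h2 := (hBR d n hn β s).2 ((Pf β)^[k] f) (fun η => ⟨h0 η, h1 η⟩) σ
  have h3 : Ex β ((Pf β)^[k] f) = Ex β f := by
    have h := (hREV d n β (fun _ => 1) f k).1
    rw [hc 1] at h
    simpa using h
  rw [h3, ← Function.iterate_add_apply] at h2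
  exact h2

end CU
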