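import Pool.Agent.helper23.CU.Spec

/-! Module FLP of project cu (MP_7c3fb3_pr): spin flip symmetry. -/

open Finset Filter Topology

namespace CU

section FLPsec
variable {d n : ℕ} [NeZero n]

lemma FLP_flip_flip (σ : Conf d n) : flipc (flipc σ) = σ := by
  funext x
  simp [flipc]

lemma FLP_brk (σ : Conf d n) : brk (flipc σ) = brk σ := by
  unfold brk flipc
  ext e
  simp

lemma FLP_W (β : ℝ) (σ : Conf d n) : W β (flipc σ) = W β σ := by
  unfold W
  rw [FLP_brk]

lemma FLP_upd (σ : Conf d n) (x : Site d n) (b : Bool) :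
    flipc (Function.update σ x b) = Function.update (flipc σ) x (!b) := by
  funext y
  by_cases h : y = x
  · subst h
    simp [flipc]
  · simp [flipc, Function.update_of_ne h]

lemma FLP_K (β : ℝ) (x : Site d n) (f : Conf d n → ℝ) (σ : Conf d n) :
    Kx β x (fun σ => f (flipc σ)) σ = Kx β x f (flipc σ) := by
  unfold Kx
  have h1 := FLP_upd σ x true
  have h2 := FLP_upd σ x false
  simp only [Bool.not_true, Bool.not_false] at h1 h2
  have w1 := FLP_W β (Function.update σ x true)
  have w2 := FLP_W β (Function.update σ x false)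
  rw [h1] at w1
  rw [h2] at w2
  simp only [h1, h2, w1, w2]
  ring

lemma FLP_P (β : ℝ) (f : Conf d n → ℝ) :
    Pf β (fun σ => f (flipc σ)) = fun σ => Pf β f (flipc σ) := by
  funext σ
  unfold Pf
  simp only [FLP_K]

lemma FLP_Pt (β : ℝ) (f : Conf d n → ℝ) (t : ℕ) :
    (Pf β)^[t] (fun σ => f (flipc σ)) = fun σ => (Pf β)^[t] f (flipc σ) := by
  induction t with
  | zero => rfl
  | succ t ih =>
    rw [Function.iterate_succ_apply', ih, FLP_P]
    funext σ
    rw [Function.iterate_succ_apply']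

lemma FLP_lin (β : ℝ) (x : Site d n) (f : Conf d n → ℝ) (a : ℝ) (σ : Conf d n) :
    Kx β x (fun σ => a * f σ) σ = a * Kx β x f σ := by
  unfold Kx
  ring

lemma FLP_Plin (β : ℝ) (f : Conf d n → ℝ) (a : ℝ) :
    Pf β (fun σ => a * f σ) = fun σ => a * Pf β f σ := by
  funext σ
  unfold Pf
  simp only [FLP_lin, ← Finset.mul_sum]
  ring

lemma FLP_Ptlin (β : ℝ) (f : Conf d n → ℝ) (a : ℝ) (t : ℕ) :
    (Pf β)^[t] (fun σ => a * f σ) = fun σ => a * (Pf β)^[t] f σ := by
  induction t with
  | zero => rfl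
  | succ t ih =>
    rw [Function.iterate_succ_apply', ih, FLP_Plin]
    funext σ
    rw [Function.iterate_succ_apply']

end FLPsec

theorem FLP : FLP_stmt := by
  intro d n _ β f t
  refine ⟨FLP_Pt β f t, ?_, ?_⟩
  · unfold Ex
    congr 1
    apply Fintype.sum_equiv (Equiv.mk flipc flipc FLP_flip_flip FLP_flip_flip)
    intro σ
    show W β σ * f (flipc σ) = W β (flipc σ) * f (flipc σ)
    rw [FLP_W]
  · intro s σ
    unfold gs
    have hM : (fun σ : Conf d n => Mg (flipc σ)) = fun σ => (-1 : ℝ) * Mg σ := by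
      funext σ
      unfold Mg flipc sg
      rw [Finset.mul_sum]
      refine Finset.sum_congr rfl fun x _ => ?_
      cases σ x <;> simp
    have h1 := FLP_Pt β (Mg (d := d) (n := n)) s
    rw [hM, FLP_Ptlin] at h1
    have h2 : (-1 : ℝ) * (Pf β)^[s] Mg σ = (Pf β)^[s] Mg (flipc σ) := congrFun h1 σ
    rw [← h2]
    ring

end CU
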