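import Pool.Agent.helper23.CU.SpecE

/-! Module HE of project cu (MP_7c3fb3_pr): translation invariance. -/

open Finset Filter Topology

namespace CU

section HEsec
variable {d n : ℕ} [NeZero n]

/-- translation of configurations -/
def HE_tr (v : Site d n) (σ : Conf d n) : Conf d n := fun x => σ (x + v)

lemma HE_brk (v : Site d n) (σ : Conf d n) : (brk (HE_tr v σ)).card = (brk σ).card := by
  apply Finset.card_bij (fun e _ => (e.1 + v, e.2))
  · intro e he
    unfold brk at he ⊢
    rw [Finset.mem_filter] at he ⊢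
    refine ⟨Finset.mem_univ _, ?_⟩
    have h := he.2
    unfold HE_tr at h
    rw [add_right_comm] at h
    exact h
  · intro e _ e' _ h
    rw [Prod.mk.injEq] at h
    exact Prod.ext (add_right_cancel h.1) h.2
  · intro e he
    refine ⟨(e.1 - v, e.2), ?_, ?_⟩
    · unfold brk at he ⊢
      rw [Finset.mem_filter] at he ⊢
      refine ⟨Finset.mem_univ _, ?_⟩
      unfold HE_tr
      show σ (e.1 - v + v) ≠ σ (e.1 - v + ev e.2 + v)
      have h2 : e.1 - v + ev e.2 + v = e.1 + ev e.2 := by abel
      rw [sub_add_cancel, h2]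
      exact he.2
    · simp

lemma HE_W (b : ℝ) (v : Site d n) (σ : Conf d n) : W b (HE_tr v σ) = W b σ := by
  unfold W
  rw [HE_brk]

lemma HE_mem (L : ℕ) (v : Site d n) (σ : Conf d n) :
    HE_tr v σ ∈ PlusOn (Box L (0 : Site d n)) ↔ σ ∈ PlusOn (Box L v) := by
  unfold PlusOn Box Near HE_tr
  simp only [Finset.mem_filter, Finset.mem_univ, true_and]
  constructor
  · intro h x hx
    have h2 := h (x - v) (by simpa using hx)
    simpa using h2
  · intro h x hx
    apply h
    simpa using hx

end HEsec

theorem HE : HE_stmt := by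
  intro d n L _ b v
  have key : ∀ F : Conf d n → ℝ, ∑ σ ∈ PlusOn (Box L v), W b σ * F (HE_tr v σ) =
      ∑ σ ∈ PlusOn (Box L (0 : Site d n)), W b σ * F σ := by
    intro F
    apply Finset.sum_bij (fun σ _ => HE_tr v σ)
    · intro σ hσ
      exact (HE_mem L v σ).2 hσ
    · intro σ _ σ' _ h
      funext x
      have h2 := congrFun h (x - v)
      unfold HE_tr at h2
      simpa using h2
    · intro σ hσ
      have h3 : HE_tr v (HE_tr (-v) σ) = σ := by
        funext x
        unfold HE_tr
        simp
      refine ⟨HE_tr (-v) σ, ?_, h3⟩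
      rw [← HE_mem, h3]
      exact hσ
    · intro σ _
      rw [HE_W]
  unfold ExD
  have h1 := key (fun σ => sg (σ 0))
  have h2 := key (fun _ => 1)
  simp only [mul_one] at h2
  rw [← h1, ← h2]
  congr 1
  refine Finset.sum_congr rfl fun σ _ => ?_
  unfold HE_tr
  simp

end CU
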