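import Pool.Agent.helper23.CU.SpecE

/-! Module HF of project cu (MP_7c3fb3_pr): uniform lower bound of the magnetisation. -/

open Finset Filter Topology

namespace CU

lemma HF_Z {d n : ℕ} [NeZero n] (b : ℝ) (D : Finset (Site d n)) : 0 < ∑ σ ∈ PlusOn D, W b σ := by
  apply Finset.sum_pos
  · intro σ _
    exact Real.exp_pos _
  · refine ⟨fun _ => true, ?_⟩
    unfold PlusOn
    simp

lemma HF_le_one {d n : ℕ} [NeZero n] (b : ℝ) (D : Finset (Site d n)) (f : Conf d n → ℝ)
    (hf : ∀ σ, f σ ≤ 1) : ExD b D f ≤ 1 := by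
  unfold ExD
  rw [div_le_one (HF_Z b D)]
  refine Finset.sum_le_sum fun σ _ => ?_
  have : 0 < W b σ := Real.exp_pos _
  exact mul_le_of_le_one_right this.le (hf σ)

lemma HF_near {d n : ℕ} [NeZero n] (r s : ℕ) (u x y : Site d n) (h1 : Near r u x) (h2 : Near s u y) :
    Near (r + s) x y := by
  intro k
  have h3 := h1 k
  have h4 := h2 k
  have e : y k - x k = (y k - u k) + -(x k - u k) := by ring
  rw [e]
  have h5 := ZMod.natAbs_valMinAbs_add_le (y k - u k) (-(x k - u k))
  have h6 := ZMod.natAbs_valMinAbs_neg (x k - u k)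
  omega

lemma HF_sg (b : Bool) : sg b ≤ 1 := by
  cases b
  · simp only [sg]
    norm_num
  · simp [sg]

theorem HF (hFK : FK_stmt) (hHD : HD_stmt) (hHE : HE_stmt) : HF_stmt := by
  intro β₁ m hβ hm b hb n r hn u x
  have hx1 := hm (2 * r) n (by omega)
  by_cases hx : x ∈ DS r u
  · have hsub : DS r u ⊆ Box (2 * r) x := by
      intro y hy
      unfold DS at hx hy
      unfold Box at hx hy ⊢
      simp only [Finset.mem_filter, Finset.mem_univ, true_and] at hx hy ⊢
      have := HF_near r r u x y hx.1 hy.1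
      rwa [← two_mul] at this
    have h1 := hFK 2 (n + 3) b (hβ.trans hb) (DS r u) (Box (2 * r) x) hsub x
    have h2 := hHE 2 (n + 3) (2 * r) b x
    have h3 := hHD 2 (n + 3) (Box (2 * r) (0 : Site 2 (n + 3))) β₁ b hβ hb 0
    linarith
  · have h1 : ExD b (DS r u) (fun σ => sg (σ x)) = 1 := by
      unfold ExD
      rw [div_eq_one_iff_eq (HF_Z b _).ne']
      refine Finset.sum_congr rfl fun σ hσ => ?_
      unfold PlusOn at hσ
      rw [Finset.mem_filter] at hσ
      show W b σ * sg (σ x) = W b σ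
      rw [hσ.2 x hx]
      simp [sg]
    rw [h1]
    refine hx1.trans (HF_le_one _ _ _ fun σ => HF_sg _)

end CU
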