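import Pool.Agent.helper23.CU.Spec

/-! Module LIN of project cu (MP_7c3fb3_pr): linearity and positivity of `P^t` and `Ex`. -/

open Finset Filter Topology

namespace CU

section LINsec
variable {d n : ℕ} [NeZero n]

lemma LIN_Wpos (β : ℝ) (σ : Conf d n) : 0 < W β σ := Real.exp_pos _

lemma LIN_Zpos (β : ℝ) : 0 < ∑ σ : Conf d n, W β σ :=
  Finset.sum_pos (fun σ _ => LIN_Wpos β σ) ⟨fun _ => true, Finset.mem_univ _⟩

lemma LIN_Npos : (0 : ℝ) < (Fintype.card (Site d n) : ℝ) := by
  have : 0 < Fintype.card (Site d n) := Fintype.card_pos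
  exact_mod_cast this

lemma LIN_Kx (β : ℝ) (x : Site d n) (f g : Conf d n → ℝ) (a b : ℝ) (σ : Conf d n) :
    Kx β x (fun σ => a * f σ + b * g σ) σ = a * Kx β x f σ + b * Kx β x g σ := by
  unfold Kx
  ring

lemma LIN_Pf (β : ℝ) (f g : Conf d n → ℝ) (a b : ℝ) :
    Pf β (fun σ => a * f σ + b * g σ) = fun σ => a * Pf β f σ + b * Pf β g σ := by
  funext σ
  unfold Pf
  simp only [LIN_Kx, Finset.sum_add_distrib, ← Finset.mul_sum]
  ring

lemma LIN_Kmono (β : ℝ) (x : Site d n) (f g : Conf d n → ℝ) (h : ∀ σ, f σ ≤ g σ) (σ : Conf d n) :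
    Kx β x f σ ≤ Kx β x g σ := by
  unfold Kx
  have h1 := LIN_Wpos β (Function.update σ x true)
  have h2 := LIN_Wpos β (Function.update σ x false)
  gcongr
  · exact h _
  · exact h _

lemma LIN_Pmono (β : ℝ) (f g : Conf d n → ℝ) (h : ∀ σ, f σ ≤ g σ) (σ : Conf d n) :
    Pf β f σ ≤ Pf β g σ := by
  unfold Pf
  apply div_le_div_of_nonneg_right _ LIN_Npos.le
  exact Finset.sum_le_sum fun x _ => LIN_Kmono β x f g h σ

end LINsec

theorem LIN : LIN_stmt := by
  intro d n _ β f g a b t
  refine ⟨?_, ?_, ?_, ?_, ?_⟩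
  · induction t with
    | zero => rfl
    | succ t ih =>
      rw [Function.iterate_succ_apply', ih, LIN_Pf]
      funext σ
      rw [Function.iterate_succ_apply', Function.iterate_succ_apply']
  · intro h
    induction t with
    | zero => exact h
    | succ t ih =>
      intro σ
      rw [Function.iterate_succ_apply', Function.iterate_succ_apply']
      exact LIN_Pmono β _ _ ih σ
  · unfold Ex
    have : ∀ σ : Conf d n, W β σ * (a * f σ + b * g σ) = a * (W β σ * f σ) + b * (W β σ * g σ) := by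
      intro σ; ring
    simp only [this, Finset.sum_add_distrib, ← Finset.mul_sum]
    ring
  · intro h
    unfold Ex
    apply div_le_div_of_nonneg_right _ (LIN_Zpos β).le
    exact Finset.sum_le_sum fun σ _ => mul_le_mul_of_nonneg_left (h σ) (LIN_Wpos β σ).le
  · unfold Ex
    rw [← Finset.sum_mul, mul_comm, mul_div_assoc, div_self (LIN_Zpos β).ne', mul_one]

end CU
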