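import Pool.Agent.helper23.CU.Spec

/-! Module MP of project cu (MP_7c3fb3_pr): minus paths are short in the plus phase. -/

open Finset Filter Topology

namespace CU

lemma MP_cl {d n : ℕ} [NeZero n] {σ : Conf d n} {K : Finset (Edge d n)} (hK : K ∈ clusters σ) :
    K.Nonempty ∧ K ⊆ brk σ := by
  classical
  simp only [clusters, Finset.mem_image] at hK
  obtain ⟨e, he, rfl⟩ := hK
  refine ⟨⟨e, ?_⟩, ?_⟩
  · simp only [clus, Finset.mem_filter]
    exact ⟨he, SimpleGraph.Reachable.refl _⟩
  · intro e' he'
    simp only [clus, Finset.mem_filter] at he'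
    exact he'.1

theorem MP (hDEC : DEC_stmt) : MP_stmt := by
  intro d n r _ hd hn σ B hσ x y hx hc
  obtain ⟨h1, h2⟩ := hDEC d n r hd hn σ hσ.1
  have h3 := h2 x
  have heps : eps r σ = 1 := hσ.2
  rw [hx, heps] at h3
  have h4 : ∃ K ∈ clusters σ, pot r K x ≠ 0 := by
    by_contra h
    push Not at h
    rw [Finset.sum_eq_zero h] at h3
    simp [bv] at h3
  obtain ⟨K, hK, hKx⟩ := h4
  obtain ⟨hne, hsub⟩ := MP_cl hK
  have hstep : ∀ a b : Site d n, σ a = false → σ b = false → nn a b → pot r K b = pot r K a := by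
    intro a b ha hb hab
    obtain ⟨i, h | h⟩ := hab
    · have h5 := (h1 K hK).1 a i
      have h6 : (a, i) ∉ K := by
        intro hm
        have := hsub hm
        simp only [brk, Finset.mem_filter] at this
        exact this.2 (by rw [← h, ha, hb])
      rw [if_neg h6, ← h] at h5
      exact sub_eq_zero.1 h5
    · have h5 := (h1 K hK).1 b i
      have h6 : (b, i) ∉ K := by
        intro hm
        have := hsub hm
        simp only [brk, Finset.mem_filter] at this
        exact this.2 (by rw [← h, ha, hb])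
      rw [if_neg h6, ← h] at h5
      exact (sub_eq_zero.1 h5).symm
  have hall : σ y = false ∧ pot r K y = pot r K x := by
    induction hc with
    | refl => exact ⟨hx, rfl⟩
    | tail _ hbc ih => exact ⟨hbc.2.1, (hstep _ _ ih.1 hbc.2.1 hbc.1).trans ih.2⟩
  obtain ⟨e, he⟩ := hne
  have hnx : Near (r + 1) e.1 x := by
    by_contra h
    exact hKx ((h1 K hK).2 e he x h)
  have hny : Near (r + 1) e.1 y := by
    by_contra h
    exact hKx (hall.2 ▸ (h1 K hK).2 e he y h)
  intro k
  have h5 := hnx k
  have h6 := hny k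
  have h7 : (y k - x k).valMinAbs.natAbs ≤
      (y k - e.1 k).valMinAbs.natAbs + (e.1 k - x k).valMinAbs.natAbs := by
    have h := (ZMod.natAbs_valMinAbs_add_le (y k - e.1 k) (e.1 k - x k)).trans
      (Int.natAbs_add_le _ _)
    rwa [sub_add_sub_cancel] at h
  have h8 : (e.1 k - x k).valMinAbs.natAbs = (x k - e.1 k).valMinAbs.natAbs := by
    rw [← neg_sub, ZMod.natAbs_valMinAbs_neg]
  omega

end CU
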