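import Pool.Agent.helper23.CU.Spec

/-! Module SB of project cu (MP_7c3fb3_pr): the magnetisation in the plus phase. -/

open Finset Filter Topology

namespace CU

section

set_option linter.unusedSectionVars false
variable {d n : ℕ} [NeZero n]

lemma SB_W_pos (β : ℝ) (σ : Conf d n) : 0 < W β σ := Real.exp_pos _

lemma SB_ExD_abs (β : ℝ) (D : Finset (Site d n)) (f : Conf d n → ℝ) (hf : ∀ σ, |f σ| ≤ 1) :
    |ExD β D f| ≤ 1 := by
  unfold ExD
  have hpos : 0 < ∑ σ ∈ PlusOn D, W β σ :=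
    Finset.sum_pos (fun σ _ => SB_W_pos β σ) ⟨plus, by simp [PlusOn, plus]⟩
  rw [abs_div, abs_of_pos hpos, div_le_one hpos]
  refine (Finset.abs_sum_le_sum_abs _ _).trans (Finset.sum_le_sum fun σ _ => ?_)
  rw [abs_mul, abs_of_pos (SB_W_pos β σ)]
  exact mul_le_of_le_one_right (SB_W_pos β σ).le (hf σ)

lemma SB_sg_abs (b : Bool) : |sg b| ≤ 1 := by
  cases b <;> simp [sg]

/-- A function on the torus with zero increments is constant. -/
lemma SB_const (δ : Site d n → ZMod 2) (h : ∀ x i, δ (x + ev i) = δ x) (x y : Site d n) :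
    δ x = δ y := by
  have h1 : ∀ (k : ℕ) (i : Fin d) (x : Site d n), δ (x + k • ev i) = δ x := by
    intro k
    induction k with
    | zero => intro i x; simp
    | succ k ih =>
      intro i x
      rw [succ_nsmul, ← add_assoc, h, ih]
  have h2 : ∀ (i : Fin d) (a : ZMod n) (x : Site d n), δ (x + Pi.single i a) = δ x := by
    intro i a x
    have : (Pi.single i a : Site d n) = a.val • ev i := by
      ext k
      simp only [ev, Pi.smul_apply]
      by_cases hk : k = i
      · subst hk; simp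
      · simp [hk]
    rw [this, h1]
  have h3 : ∀ (s : Finset (Fin d)) (z x : Site d n),
      δ (x + ∑ i ∈ s, (Pi.single i (z i) : Site d n)) = δ x := by
    intro s z
    induction s using Finset.induction_on with
    | empty => intro x; simp
    | insert a s ha ih =>
      intro x
      rw [Finset.sum_insert ha]
      have e : x + ((Pi.single a (z a) : Site d n) + ∑ i ∈ s, (Pi.single i (z i) : Site d n)) =
          (x + ∑ i ∈ s, (Pi.single i (z i) : Site d n)) + Pi.single a (z a) := by abel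
      rw [e, h2, ih]
  have h4 : y = x + ∑ i, (Pi.single i ((y - x) i) : Site d n) := by
    rw [Finset.univ_sum_single]
    abel
  rw [h4, h3]

lemma SB_nat (a : ℕ) (h : a ≤ n / 2) : ((a : ZMod n)).valMinAbs.natAbs = a := by
  rw [ZMod.valMinAbs_natCast_of_le_half h, Int.natAbs_natCast]

lemma SB_tri (a b : ZMod n) :
    (a + b).valMinAbs.natAbs ≤ a.valMinAbs.natAbs + b.valMinAbs.natAbs :=
  (ZMod.natAbs_valMinAbs_add_le a b).trans (Int.natAbs_add_le _ _)

lemma SB_neg (a : ZMod n) : (-a).valMinAbs.natAbs = a.valMinAbs.natAbs :=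
  ZMod.natAbs_valMinAbs_neg a

lemma SB_ev (hn : 3 ≤ n) (i k : Fin d) : ((ev i : Site d n) k).valMinAbs.natAbs ≤ 1 := by
  by_cases hk : k = i
  · subst hk
    have h := SB_nat (n := n) 1 (by omega)
    simp only [ev, Pi.single_eq_same]
    rw [Nat.cast_one] at h
    exact h.le
  · simp [ev, hk]

lemma SB_nn (hn : 3 ≤ n) {x y : Site d n} (h : nn x y) (k : Fin d) :
    (y k - x k).valMinAbs.natAbs ≤ 1 := by
  obtain ⟨i, h | h⟩ := h
  · subst h
    have : (x + ev i : Site d n) k - x k = (ev i : Site d n) k := by simp [Pi.add_apply]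
    rw [this]
    exact SB_ev hn i k
  · subst h
    have : y k - (y + ev i : Site d n) k = -((ev i : Site d n) k) := by simp [Pi.add_apply]
    rw [this, SB_neg]
    exact SB_ev hn i k

lemma SB_nn' (hn : 3 ≤ n) {x y : Site d n} (h : nn x y ∨ nn y x) (k : Fin d) :
    (y k - x k).valMinAbs.natAbs ≤ 1 := by
  rcases h with h | h
  · exact SB_nn hn h k
  · rw [← neg_sub, SB_neg]
    exact SB_nn hn h k

lemma SB_good {r₁ r : ℕ} (h : r₁ ≤ r) {σ : Conf d n} (hσ : Good r₁ σ) : Good r σ :=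
  fun e he e' hr k => (hσ e he e' hr k).trans h

lemma SB_cl_ne {σ : Conf d n} {K : Finset (Edge d n)} (hK : K ∈ clusters σ) : K.Nonempty := by
  classical
  simp only [clusters, Finset.mem_image] at hK
  obtain ⟨e, he, rfl⟩ := hK
  refine ⟨e, ?_⟩
  simp only [clus, Finset.mem_filter]
  exact ⟨he, SimpleGraph.Reachable.refl _⟩

/-- The potentials for two radii agree. -/
lemma SB_pot {r₁ r : ℕ} (hd : 2 ≤ d) (h : r₁ ≤ r) (hn : 2 * (r + 2) ≤ n) {K : Finset (Edge d n)}
    (hK : K.Nonempty) (h1 : PotS r₁ K (pot r₁ K)) (h2 : PotS r K (pot r K)) :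
    pot r₁ K = pot r K := by
  obtain ⟨e, he⟩ := hK
  set i0 : Fin d := ⟨0, by omega⟩
  set z : Site d n := e.1 + Pi.single i0 ((n / 2 : ℕ) : ZMod n) with hz
  have hfar : ∀ s, s ≤ r → ¬ Near (s + 1) e.1 z := by
    intro s hs hN
    have h3 := hN i0
    have h4 : z i0 - e.1 i0 = ((n / 2 : ℕ) : ZMod n) := by simp [hz]
    rw [h4, SB_nat _ le_rfl] at h3
    omega
  have hz1 : pot r₁ K z = 0 := h1.2 e he z (hfar r₁ h)
  have hz2 : pot r K z = 0 := h2.2 e he z (hfar r le_rfl)
  have hc := SB_const (fun x => pot r₁ K x - pot r K x) (fun x i => by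
    have e1 := h1.1 x i
    have e2 := h2.1 x i
    have : pot r₁ K (x + ev i) - pot r₁ K x = pot r K (x + ev i) - pot r K x := by rw [e1, e2]
    linear_combination this)
  funext x
  have h5 := hc x z
  simp only [hz1, hz2, sub_self] at h5
  exact sub_eq_zero.1 h5

lemma SB_notReached {r₁ L : ℕ} (hn : 3 ≤ n) (hL : 2 * r₁ + 5 ≤ L) (v : Site d n) (σ : Conf d n)
    (hMP : ∀ x y, σ x = false → ConnM (Box L v) σ x y → Near (2 * r₁ + 2) x y) :
    ¬ Reached (Box L v) v σ := by
  rintro ⟨x, hx, ⟨y, hy, hxy⟩, hσ, y0, hc, hv⟩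
  have hN := hMP x y0 hσ hc
  simp only [Box, Finset.mem_filter, Finset.mem_univ, true_and] at hx hy
  unfold Near at hy
  push Not at hy
  obtain ⟨k, hk⟩ := hy
  have h1 := SB_nn' hn hxy k
  have h2 : (y k - v k).valMinAbs.natAbs ≤
      (y k - x k).valMinAbs.natAbs + (x k - v k).valMinAbs.natAbs := by
    have := SB_tri (y k - x k) (x k - v k)
    rwa [sub_add_sub_cancel] at this
  have h3 := hN k
  have h4 : (v k - y0 k).valMinAbs.natAbs ≤ 1 := by
    rcases hv with hv | hv
    · subst hv; simp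
    · exact SB_nn' hn hv k
  have h5 : (v k - x k).valMinAbs.natAbs ≤
      (v k - y0 k).valMinAbs.natAbs + (y0 k - x k).valMinAbs.natAbs := by
    have := SB_tri (v k - y0 k) (y0 k - x k)
    rwa [sub_add_sub_cancel] at this
  have h6 : (x k - v k).valMinAbs.natAbs = (v k - x k).valMinAbs.natAbs := by
    rw [← neg_sub, SB_neg]
  omega

end

theorem SB (hLIN : LIN_stmt) (hPH : PH_stmt) (hLO : LO_stmt) (hDEC : DEC_stmt) (hMP : MP_stmt)
    (hEX : EX_stmt) : SB_stmt := by
  intro d n r₁ r L _ hd hr hL hn β hβ v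
  have hn3 : 3 ≤ n := by omega
  set B := Box L v with hB
  set m := ExD β B (fun σ => sg (σ v)) with hm
  have hm1 : |m| ≤ 1 := SB_ExD_abs β B _ fun σ => SB_sg_abs _
  set A : Set (Conf d n) := Ph r with hA
  set C : Set (Conf d n) := {σ | ∃ σ' ∈ A, ∀ x, x ∉ B → σ x = σ' x} with hC
  set X : Set (Conf d n) := C ∩ {σ | ¬ Reached B v σ} with hX
  set G₁ : Set (Conf d n) := {σ | ¬ Good r₁ σ} with hG₁
  set G : Set (Conf d n) := {σ | ¬ Good r σ} with hG
  have hAC : A ⊆ C := fun σ hσ => ⟨σ, hσ, fun _ _ => rfl⟩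
  have hCA : ∀ σ ∈ C, Good r σ → σ ∈ A := by
    rintro σ ⟨σ', hσ', hx⟩ hg
    exact ⟨hg, (hLO d n r L hd hn v σ σ' hg hσ'.1 hx).trans hσ'.2⟩
  have hA1 : ∀ σ ∈ A, Good r₁ σ → σ ∈ Ph (d := d) (n := n) r₁ := by
    intro σ hσ hg
    refine ⟨hg, ?_⟩
    have h1 := hDEC d n r₁ hd (by omega) σ hg
    have h2 := hDEC d n r hd (by omega) σ hσ.1
    have h3 : eps r₁ σ = eps r σ := by
      unfold eps
      congr 1
      refine Finset.sum_congr rfl fun K hK => ?_
      rw [SB_pot hd hr (by omega) (SB_cl_ne hK) (h1.1 K hK) (h2.1 K hK)]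
    rw [h3]
    exact hσ.2
  have hNR : ∀ σ ∈ A, Good r₁ σ → ¬ Reached B v σ := by
    intro σ hσ hg
    exact SB_notReached hn3 hL v σ fun x y hx hc =>
      hMP d n r₁ hd (by omega) σ B (hA1 σ hσ hg) x y hx hc
  have hvB : v ∈ B := by
    simp only [hB, Box, Finset.mem_filter, Finset.mem_univ, true_and]
    intro k
    simp
  have hnB : ∀ y, nn v y ∨ nn y v → y ∈ B := by
    intro y hy
    simp only [hB, Box, Finset.mem_filter, Finset.mem_univ, true_and]
    intro k
    have := SB_nn' hn3 hy k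
    omega
  have hCB : ∀ σ σ' : Conf d n, (∀ x, x ∉ B → σ x = σ' x) → (σ ∈ C ↔ σ' ∈ C) := by
    intro σ σ' h
    constructor
    · rintro ⟨τ, hτ, hx⟩
      exact ⟨τ, hτ, fun x hxB => (h x hxB).symm.trans (hx x hxB)⟩
    · rintro ⟨τ, hτ, hx⟩
      exact ⟨τ, hτ, fun x hxB => (h x hxB).trans (hx x hxB)⟩
  have hex := hEX d n β hβ B v C hvB hnB hCB
  have lin : ∀ (f g : Conf d n → ℝ) (a b : ℝ),
      Ex β (fun σ => a * f σ + b * g σ) = a * Ex β f + b * Ex β g :=
    fun f g a b => (hLIN d n β f g a b 0).2.2.1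
  have mono : ∀ (f g : Conf d n → ℝ), (∀ σ, f σ ≤ g σ) → Ex β f ≤ Ex β g :=
    fun f g => (hLIN d n β f g 0 0 0).2.2.2.1
  set ζ₁ := PrE β G₁ with hζ₁
  set ζ := PrE β G with hζ
  have hph := (hPH d n r hd (by omega) β).2.2
  have hPA : PrE β A = (1 - ζ) / 2 := by
    rw [← hA, ← hG, ← hζ] at hph
    linarith
  -- the indicator functions
  have hXG : ∀ σ, A.indicator (fun _ => (1 : ℝ)) σ - G₁.indicator (fun _ => 1) σ ≤
      X.indicator (fun _ => 1) σ := by
    intro σ
    by_cases h1 : σ ∈ A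
    · by_cases h2 : σ ∈ G₁
      · rw [Set.indicator_of_mem h1, Set.indicator_of_mem h2, sub_self]
        exact Set.indicator_nonneg (fun _ _ => zero_le_one) _
      · have h3 : Good r₁ σ := by
          by_contra h; exact h2 h
        have h4 : σ ∈ X := ⟨hAC h1, hNR σ h1 h3⟩
        rw [Set.indicator_of_mem h1, Set.indicator_of_notMem h2, Set.indicator_of_mem h4]
        norm_num
    · rw [Set.indicator_of_notMem h1]
      have h2 : 0 ≤ G₁.indicator (fun _ => (1 : ℝ)) σ :=
        Set.indicator_nonneg (fun _ _ => zero_le_one) _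
      have h3 : 0 ≤ X.indicator (fun _ => (1 : ℝ)) σ :=
        Set.indicator_nonneg (fun _ _ => zero_le_one) _
      linarith
  have hXA : ∀ σ, X.indicator (fun _ => (1 : ℝ)) σ ≤
      A.indicator (fun _ => 1) σ + G.indicator (fun _ => 1) σ := by
    intro σ
    have h2 : 0 ≤ G.indicator (fun _ => (1 : ℝ)) σ :=
      Set.indicator_nonneg (fun _ _ => zero_le_one) _
    have h3 : 0 ≤ A.indicator (fun _ => (1 : ℝ)) σ :=
      Set.indicator_nonneg (fun _ _ => zero_le_one) _
    by_cases h1 : σ ∈ X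
    · rw [Set.indicator_of_mem h1]
      by_cases h4 : σ ∈ G
      · rw [Set.indicator_of_mem h4]; linarith
      · have h5 : Good r σ := by
          by_contra h; exact h4 h
        rw [Set.indicator_of_mem (hCA σ h1.1 h5)]; linarith
    · rw [Set.indicator_of_notMem h1]; linarith
  have e1 : PrE β A - ζ₁ ≤ PrE β X := by
    have h := mono _ _ hXG
    have h2 := lin (A.indicator fun _ => (1 : ℝ)) (G₁.indicator fun _ => 1) 1 (-1)
    have h3 : (fun σ => 1 * A.indicator (fun _ => (1 : ℝ)) σ + -1 * G₁.indicator (fun _ => 1) σ)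
        = fun σ => A.indicator (fun _ => (1 : ℝ)) σ - G₁.indicator (fun _ => 1) σ := by
      funext σ; ring
    rw [h3] at h2
    rw [h2] at h
    rw [hζ₁]
    unfold PrE
    linarith
  have e2 : PrE β X ≤ PrE β A + ζ := by
    have h := mono _ _ hXA
    have h2 := lin (A.indicator fun _ => (1 : ℝ)) (G.indicator fun _ => 1) 1 1
    have h3 : (fun σ => 1 * A.indicator (fun _ => (1 : ℝ)) σ + 1 * G.indicator (fun _ => 1) σ)
        = fun σ => A.indicator (fun _ => (1 : ℝ)) σ + G.indicator (fun _ => 1) σ := by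
      funext σ; ring
    rw [h3] at h2
    rw [h2] at h
    rw [hζ]
    unfold PrE
    linarith
  have e3 : 0 ≤ Ex β (fun σ => X.indicator (fun _ => (1 : ℝ)) σ * sg (σ v)) - m * PrE β X := by
    have h2 := lin (fun σ => X.indicator (fun _ => (1 : ℝ)) σ * sg (σ v))
      (X.indicator fun _ => 1) 1 (-m)
    have h3 : (fun σ => 1 * (X.indicator (fun _ => (1 : ℝ)) σ * sg (σ v)) +
        -m * X.indicator (fun _ => 1) σ) = fun σ => (C ∩ {σ | ¬ Reached B v σ}).indicator
          (fun _ => 1) σ * (sg (σ v) - ExD β B (fun η => sg (η v))) := by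
      funext σ
      rw [← hX, ← hm]
      ring
    rw [h3] at h2
    rw [h2] at hex
    unfold PrE
    linarith
  have e4 : Ex β (fun σ => X.indicator (fun _ => (1 : ℝ)) σ * sg (σ v)) - ζ₁ - ζ ≤
      Ex β (fun σ => A.indicator (fun _ => (1 : ℝ)) σ * sg (σ v)) := by
    have h := mono (fun σ => X.indicator (fun _ => (1 : ℝ)) σ * sg (σ v))
      (fun σ => 1 * (A.indicator (fun _ => (1 : ℝ)) σ * sg (σ v)) +
        1 * (1 * G₁.indicator (fun _ => 1) σ + 1 * G.indicator (fun _ => 1) σ)) (by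
      intro σ
      have h1 := hXG σ
      have h2 := hXA σ
      have h5 : 0 ≤ G₁.indicator (fun _ => (1 : ℝ)) σ :=
        Set.indicator_nonneg (fun _ _ => zero_le_one) _
      have h6 : 0 ≤ G.indicator (fun _ => (1 : ℝ)) σ :=
        Set.indicator_nonneg (fun _ _ => zero_le_one) _
      cases σ v
      · have : sg false = -1 := by simp [sg]
        rw [this]; linarith
      · have : sg true = 1 := by simp [sg]
        rw [this]; linarith)
    rw [lin, lin] at h
    rw [hζ₁, hζ]
    unfold PrE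
    linarith
  have h7 := abs_le.1 hm1
  have hz0 : 0 ≤ ζ := by
    have h := mono (fun _ => 0) (G.indicator fun _ => 1)
      (fun σ => Set.indicator_nonneg (fun _ _ => zero_le_one) _)
    have h2 : Ex β (fun _ : Conf d n => (0 : ℝ)) = 0 := by simp [Ex]
    rw [h2] at h
    exact h
  have hz1 : 0 ≤ ζ₁ := by
    have h := mono (fun _ => 0) (G₁.indicator fun _ => 1)
      (fun σ => Set.indicator_nonneg (fun _ _ => zero_le_one) _)
    have h2 : Ex β (fun _ : Conf d n => (0 : ℝ)) = 0 := by simp [Ex]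
    rw [h2] at h
    exact h
  have h8 : m / 2 - (ζ / 2 + ζ₁) ≤ m * PrE β X := by
    have h9 : |PrE β X - 1 / 2| ≤ ζ / 2 + ζ₁ := by
      rw [abs_le]
      constructor <;> linarith
    have h10 : |m * (PrE β X - 1 / 2)| ≤ ζ / 2 + ζ₁ := by
      rw [abs_mul]
      calc |m| * |PrE β X - 1 / 2| ≤ 1 * |PrE β X - 1 / 2| :=
            mul_le_mul_of_nonneg_right hm1 (abs_nonneg _)
        _ ≤ _ := by linarith
    have h11 := (abs_le.1 h10).1
    linarith
  linarith

end CU
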